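import Pool.Agent.H54.RH.Targets

/-!
MP_def5ca_co, row HX of the board rhx_modules: intersections of hexagons.
-/

set_option autoImplicit false
set_option linter.unusedVariables false

namespace Pool.Agent.H74.RHX

open Pool.Agent.H54.RH
open Pool.Agent.H54.PM (body IsGon IsEdge Un IsPM ver edg chi Ori)

namespace HX

variable {n : ℕ}

theorem f3 (c : Fin 3) (h : c ≠ 1) : c = 0 ∨ c = 2 := by
  revert c
  decide

theorem v0 : (((0 : Fin 3).val : ℕ) : ℝ) = 0 := by norm_num
theorem v1 : (((1 : Fin 3).val : ℕ) : ℝ) = 1 := by norm_num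
theorem v2 : (((2 : Fin 3).val : ℕ) : ℝ) = 2 := by
  have : (2 : Fin 3).val = 2 := rfl
  rw [this]; norm_num

theorem val_inj {a b : Fin 3} (h : ((a.val : ℕ) : ℝ) = (b.val : ℕ)) : a = b :=
  Fin.ext (Nat.cast_injective h)

theorem mem_act {h : W n} {t : Fin n} : t ∈ act h ↔ h t = 1 := by
  unfold act
  simp

theorem mem_hf {h : W n} {v : W n} (hv : IsVx h v) : pw v ∈ hf h := by
  classical
  unfold hf
  rw [Finset.mem_image]
  exact ⟨v, by simpa using hv, rfl⟩

theorem of_mem_hf {h : W n} {x : Fin n → ℝ} (hx : x ∈ hf h) : ∃ v, IsVx h v ∧ x = pw v := by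
  classical
  unfold hf at hx
  rw [Finset.mem_image] at hx
  obtain ⟨v, hv, rfl⟩ := hx
  exact ⟨v, by simpa using hv, rfl⟩

theorem vx_of {h v : W n} (i j k : Fin n) (hj : h j = 1) (hk : h k = 1)
    (hij : i ≠ j) (hik : i ≠ k) (hjk : j ≠ k) (hoff : ∀ t, t ≠ i → t ≠ j → t ≠ k → v t = h t)
    (vi : v i = h i) (vj : v j = 0) (vk : v k = 2) : IsVx h v := by
  refine ⟨j, k, hj, hk, hjk, ?_⟩
  funext t
  by_cases h1 : t = k
  · rw [h1, Function.update_self, vk]
  rw [Function.update_of_ne h1]
  by_cases h2 : t = j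
  · rw [h2, Function.update_self, vj]
  rw [Function.update_of_ne h2]
  by_cases h3 : t = i
  · rw [h3, vi]
  exact hoff t h3 h2 h1

theorem vx_off {h v : W n} (hv : IsVx h v) {t : Fin n} (ht : h t ≠ 1) : v t = h t := by
  obtain ⟨z, y, hz, hy, hzy, rfl⟩ := hv
  have h1 : t ≠ z := fun e => ht (e ▸ hz)
  have h2 : t ≠ y := fun e => ht (e ▸ hy)
  rw [Function.update_of_ne h2, Function.update_of_ne h1]

theorem aff_off {h : W n} {x : Fin n → ℝ} (hx : x ∈ affineSpan ℝ (hf h : Set (Fin n → ℝ)))
    {t : Fin n} (ht : h t ≠ 1) : x t = ((h t).val : ℝ) := by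
  have key : ∀ y ∈ affineSpan ℝ (hf h : Set (Fin n → ℝ)), y t = ((h t).val : ℝ) := by
    intro y hy
    refine affineSpan_induction (p := fun y : Fin n → ℝ => y t = ((h t).val : ℝ)) hy ?_ ?_
    · intro z hz
      obtain ⟨v, hv, rfl⟩ := of_mem_hf (Finset.mem_coe.1 hz)
      change (((v t).val : ℕ) : ℝ) = _
      rw [vx_off hv ht]
    · intro c u v w hu hv hw
      change c * (u t - v t) + w t = _
      rw [hu, hv, hw]
      ring
  exact key x hx

theorem exists_two {h : W n} (hA : (act h).card = 3) {t : Fin n} (ht : h t = 1) :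
    ∃ u v : W n, IsVx h u ∧ IsVx h v ∧ u t = 0 ∧ v t = 2 := by
  have h1 : ∃ s ∈ act h, s ≠ t := by
    by_contra hc
    push Not at hc
    have : act h ⊆ {t} := fun s hs => Finset.mem_singleton.2 (hc s hs)
    have h2 := Finset.card_le_card this
    rw [hA, Finset.card_singleton] at h2
    omega
  obtain ⟨s, hs, hst⟩ := h1
  rw [mem_act] at hs
  refine ⟨Function.update (Function.update h t 0) s 2, Function.update (Function.update h s 0) t 2,
    ⟨t, s, ht, hs, hst.symm, rfl⟩, ⟨s, t, hs, ht, hst, rfl⟩, ?_, ?_⟩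
  · rw [Function.update_of_ne hst.symm, Function.update_self]
  · rw [Function.update_self]

theorem span_sub {h g : W n} (hB : (act g).card = 3)
    (he : affineSpan ℝ (hf h : Set (Fin n → ℝ)) = affineSpan ℝ (hf g : Set (Fin n → ℝ)))
    (t : Fin n) (ht : h t ≠ 1) : g t = h t := by
  have key : ∀ v, IsVx g v → ((v t).val : ℝ) = ((h t).val : ℝ) := by
    intro v hv
    have h1 : pw v ∈ affineSpan ℝ (hf h : Set (Fin n → ℝ)) := by
      rw [he]
      exact subset_affineSpan ℝ _ (Finset.mem_coe.2 (mem_hf hv))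
    exact aff_off h1 ht
  by_cases hg : g t = 1
  · exfalso
    obtain ⟨u, v, hu, hv, u0, v2'⟩ := exists_two hB hg
    have e1 := key u hu
    have e2 := key v hv
    rw [u0] at e1
    rw [v2', ← e1, v2, v0] at e2
    norm_num at e2
  · have hne : (act g).Nonempty := by
      rw [← Finset.card_pos, hB]; norm_num
    obtain ⟨s, hs⟩ := hne
    obtain ⟨u, v, hu, -, -, -⟩ := exists_two hB (mem_act.1 hs)
    have e1 := key u hu
    rw [vx_off hu hg] at e1
    exact val_inj e1

theorem seg_lem (x : Fin n → ℝ) (e : W n) (i j : Fin n) (hij : i ≠ j) (p q : Fin 3)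
    (hpq : ((q.val : ℕ) : ℝ) = (p.val : ℕ) + 1)
    (hx : ∀ t, t ≠ i → t ≠ j → x t = ((e t).val : ℝ))
    (hs : x i + x j = ((p.val : ℕ) : ℝ) + (q.val : ℕ)) (h1 : ((p.val : ℕ) : ℝ) ≤ x i)
    (h2 : x i ≤ (q.val : ℕ)) :
    x ∈ segment ℝ (pw (Function.update (Function.update e i p) j q))
      (pw (Function.update (Function.update e i q) j p)) := by
  refine ⟨1 - (x i - (p.val : ℕ)), x i - (p.val : ℕ), by linarith, by linarith, by ring, ?_⟩
  funext t
  rw [Pi.add_apply, Pi.smul_apply, Pi.smul_apply, smul_eq_mul, smul_eq_mul]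
  unfold pw
  by_cases hj : t = j
  · rw [hj, Function.update_self, Function.update_self, hpq]
    linarith
  rw [Function.update_of_ne hj, Function.update_of_ne hj]
  by_cases hi : t = i
  · rw [hi, Function.update_self, Function.update_self, hpq]
    ring
  rw [Function.update_of_ne hi, Function.update_of_ne hi, hx t hi hj]
  ring

theorem sum3 {A : Finset (Fin n)} {i j k : Fin n} (hij : i ≠ j) (hik : i ≠ k) (hjk : j ≠ k)
    (hA : A = {i, j, k}) (x : Fin n → ℝ) : ∑ t ∈ A, x t = x i + x j + x k := by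
  rw [hA, Finset.sum_insert (by simp [hij, hik]), Finset.sum_insert (by simp [hjk]),
    Finset.sum_singleton]
  ring

/-- the word of the intersection -/
def mg (h g : W n) : W n := fun t => if h t = 1 then g t else h t

theorem mg_comm {h g : W n} (hc : ∀ t, h t ≠ 1 → g t ≠ 1 → h t = g t) : mg h g = mg g h := by
  funext t
  unfold mg
  split_ifs with h1 h2 h3
  · rw [h1, h2]
  · rfl
  · rfl
  · exact hc t h1 h3

theorem mg_off {h g : W n} {t : Fin n} (ht : h t ≠ 1) : mg h g t = h t := by
  unfold mg; rw [if_neg ht]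

theorem mg_one {h g : W n} {t : Fin n} (ht : h t = 1) : mg h g t = g t := by
  unfold mg; rw [if_pos ht]

/-- a hexagon meets the set of the words with the fixed coordinates `e` off `i`, `j` in an edge;
`k` is the third place -/
theorem edge_one (h1 : T_HE) {h : W n} (hcard : (act h).card = 3) (i j k : Fin n) (hij : i ≠ j)
    (hik : i ≠ k) (hjk : j ≠ k) (hi : h i = 1) (hj : h j = 1) (hk : h k = 1) (e : W n)
    (he : ∀ t, h t ≠ 1 → e t = h t)
    (hA : ∀ t, h t = 1 → t = i ∨ t = j ∨ t = k) (p q : Fin 3)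
    (hpq : (p = 1 ∧ q = 2 ∧ e k = 0) ∨ (p = 0 ∧ q = 1 ∧ e k = 2)) :
    IsEdge (hf h) (pw (Function.update (Function.update e i p) j q))
      (pw (Function.update (Function.update e i q) j p)) := by
  rw [h1 n h hcard]
  have off : ∀ (p q : Fin 3) (t : Fin n), t ≠ i → t ≠ j → t ≠ k →
      Function.update (Function.update e i p) j q t = h t := by
    intro p q t a1 a2 a3
    rw [Function.update_of_ne a2, Function.update_of_ne a1]
    refine he t fun hc => ?_
    rcases hA t hc with h | h | h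
    exacts [a1 h, a2 h, a3 h]
  have ai : ∀ p q : Fin 3, Function.update (Function.update e i p) j q i = p := by
    intro p q
    rw [Function.update_of_ne hij, Function.update_self]
  have aj : ∀ p q : Fin 3, Function.update (Function.update e i p) j q j = q := by
    intro p q
    rw [Function.update_self]
  have ak : ∀ p q : Fin 3, Function.update (Function.update e i p) j q k = e k := by
    intro p q
    rw [Function.update_of_ne hjk.symm, Function.update_of_ne hik.symm]
  refine ⟨_, _, rfl, rfl, ?_, ?_, ?_, k, hk, ?_, ?_⟩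
  · rcases hpq with ⟨hp, hq, hek⟩ | ⟨hp, hq, hek⟩
    · refine vx_of i k j hk hj hik hij hjk.symm (fun t a b c => off _ _ t a c b) ?_ ?_ ?_
      · rw [ai, hp, hi]
      · rw [ak, hek]
      · rw [aj, hq]
    · refine vx_of j i k hi hk hij.symm hjk hik (fun t a b c => off _ _ t b a c) ?_ ?_ ?_
      · rw [aj, hq, hj]
      · rw [ai, hp]
      · rw [ak, hek]
  · rcases hpq with ⟨hp, hq, hek⟩ | ⟨hp, hq, hek⟩
    · refine vx_of j k i hk hi hjk hij.symm hik.symm (fun t a b c => off _ _ t c a b) ?_ ?_ ?_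
      · rw [aj, hp, hj]
      · rw [ak, hek]
      · rw [ai, hq]
    · refine vx_of i j k hj hk hij hik hjk (fun t a b c => off _ _ t a b c) ?_ ?_ ?_
      · rw [ai, hq, hi]
      · rw [aj, hp]
      · rw [ak, hek]
  · intro hc
    have h2 := congrFun hc i
    rw [ai, ai] at h2
    rcases hpq with ⟨hp, hq, hek⟩ | ⟨hp, hq, hek⟩
    · rw [hp, hq] at h2; exact absurd h2 (by decide)
    · rw [hp, hq] at h2; exact absurd h2 (by decide)
  · rw [ak, ak]
  · rw [ak]
    rcases hpq with ⟨hp, hq, hek⟩ | ⟨hp, hq, hek⟩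
    · rw [hek]; decide
    · rw [hek]; decide

/-- three places, two of them fixed -/
theorem vx_three {h e : W n} (i j k : Fin n) (hij : i ≠ j) (hik : i ≠ k) (hjk : j ≠ k)
    (hi : h i = 1) (hj : h j = 1) (hk : h k = 1) (he : ∀ t, h t ≠ 1 → e t = h t)
    (hA : ∀ t, h t = 1 → t = i ∨ t = j ∨ t = k) (ei : e i = 1)
    (hjk' : (e j = 0 ∧ e k = 2) ∨ (e j = 2 ∧ e k = 0)) : IsVx h e := by
  have off : ∀ t : Fin n, t ≠ i → t ≠ j → t ≠ k → e t = h t := by
    intro t a1 a2 a3
    refine he t fun hc => ?_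
    rcases hA t hc with h | h | h
    exacts [a1 h, a2 h, a3 h]
  rcases hjk' with ⟨h1, h2⟩ | ⟨h1, h2⟩
  · exact vx_of i j k hj hk hij hik hjk off (by rw [ei, hi]) h1 h2
  · exact vx_of i k j hk hj hik hij hjk.symm (fun t a b c => off t a c b) (by rw [ei, hi]) h2 h1

/-- the values of the two fixed places -/
theorem two_fixed {x : Fin n → ℝ} {i j k : Fin n} {a b : Fin 3} (ha : a ≠ 1) (hb : b ≠ 1)
    (hj : x j = ((a.val : ℕ) : ℝ)) (hk : x k = ((b.val : ℕ) : ℝ)) (h0 : 0 ≤ x i) (h2 : x i ≤ 2)
    (hs : x i + x j + x k = 3) : ((a = 0 ∧ b = 2) ∨ (a = 2 ∧ b = 0)) ∧ x i = 1 := by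
  rcases f3 a ha with rfl | rfl <;> rcases f3 b hb with rfl | rfl
  · rw [v0] at hj hk
    rw [hj, hk] at hs
    exfalso; linarith
  · rw [v0] at hj
    rw [v2] at hk
    exact ⟨Or.inl ⟨rfl, rfl⟩, by linarith⟩
  · rw [v2] at hj
    rw [v0] at hk
    exact ⟨Or.inr ⟨rfl, rfl⟩, by linarith⟩
  · rw [v2] at hj hk
    exfalso; linarith

end HX

open HX

theorem pf_HX (h0 : T_HB) (h1 : T_HE) : T_HX := by
  classical
  intro n h g hA hB htwo hne
  have hspan : affineSpan ℝ (hf h : Set (Fin n → ℝ)) ≠ affineSpan ℝ (hf g : Set (Fin n → ℝ)) := by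
    intro he
    apply hne
    funext t
    by_cases ht : h t = 1
    · by_cases hg : g t = 1
      · rw [ht, hg]
      · exact span_sub hA he.symm t hg
    · exact (span_sub hB he t ht).symm
  refine ⟨?_, hspan, fun he => hspan (by rw [he])⟩
  by_cases hI : body (hf h) ∩ body (hf g) = ∅
  · exact Or.inl hI
  refine Or.inr ?_
  have hIne : (body (hf h) ∩ body (hf g)).Nonempty := Set.nonempty_iff_ne_empty.2 hI
  have hmem : ∀ x, x ∈ body (hf h) ∩ body (hf g) ↔ (x ∈ Pg h ∧ x ∈ Pg g) := by
    intro x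
    rw [h0 n h hA, h0 n g hB]
    exact Iff.rfl
  have hconv : Convex ℝ (body (hf h) ∩ body (hf g)) := (convex_convexHull ℝ _).inter
    (convex_convexHull ℝ _)
  obtain ⟨x₀, hx₀⟩ := hIne
  obtain ⟨hx₁, hx₂⟩ := (hmem x₀).1 hx₀
  have hcomp : ∀ t, h t ≠ 1 → g t ≠ 1 → h t = g t := by
    intro t a1 a2
    exact val_inj ((hx₁.1 t a1).symm.trans (hx₂.1 t a2))
  have hoff : ∀ x, x ∈ Pg h → x ∈ Pg g → ∀ t, ¬ (h t = 1 ∧ g t = 1) →
      x t = ((mg h g t).val : ℝ) := by
    intro x hx hx' t ht
    by_cases a1 : h t = 1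
    · rw [mg_one a1]
      exact hx'.1 t fun a2 => ht ⟨a1, a2⟩
    · rw [mg_off a1]
      exact hx.1 t a1
  have heh : ∀ t, h t ≠ 1 → mg h g t = h t := fun t ht => mg_off ht
  have heg : ∀ t, g t ≠ 1 → mg h g t = g t := fun t ht => by
    rw [mg_comm hcomp]; exact mg_off ht
  -- the cardinality of the intersection of the active sets
  have hcC : (act h ∩ act g).card ≤ 3 := by
    rw [← hA]; exact Finset.card_le_card Finset.inter_subset_left
  have cd1 : (act h \ act g).card + (act h ∩ act g).card = 3 := by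
    rw [Finset.card_sdiff_add_card_inter, hA]
  have cd2 : (act g \ act h).card + (act h ∩ act g).card = 3 := by
    rw [Finset.inter_comm, Finset.card_sdiff_add_card_inter, hB]
  have hcases : (act h ∩ act g).card = 0 ∨ (act h ∩ act g).card = 1 ∨
    (act h ∩ act g).card = 2 ∨ (act h ∩ act g).card = 3 := by omega
  rcases hcases with hc | hc | hc | hc
  · -- no common active place: impossible
    exfalso
    obtain ⟨i, j, k, hij, hik, hjk, hA'⟩ := Finset.card_eq_three.1 hA
    have hs := hx₁.2.2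
    rw [sum3 hij hik hjk hA'] at hs
    have hno : ∀ t ∈ act h, g t ≠ 1 := by
      intro t ht hg
      have : t ∈ act h ∩ act g := Finset.mem_inter.2 ⟨ht, mem_act.2 hg⟩
      rw [Finset.card_eq_zero.1 hc] at this
      exact absurd this (Finset.notMem_empty _)
    have gi := hno i (by rw [hA']; simp)
    have gj := hno j (by rw [hA']; simp)
    have gk := hno k (by rw [hA']; simp)
    rw [hx₂.1 i gi, hx₂.1 j gj, hx₂.1 k gk] at hs
    rcases f3 _ gi with e1 | e1 <;> rcases f3 _ gj with e2 | e2 <;> rcases f3 _ gk with e3 | e3 <;>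
      (rw [e1, e2, e3] at hs; simp only [v0, v2] at hs; norm_num at hs)
  · -- one common active place
    refine Or.inl ?_
    obtain ⟨i, hC⟩ := Finset.card_eq_one.1 hc
    obtain ⟨j, k, hjk, hD⟩ := Finset.card_eq_two.1 (show (act h \ act g).card = 2 by omega)
    obtain ⟨l, m, hlm, hE⟩ := Finset.card_eq_two.1 (show (act g \ act h).card = 2 by omega)
    have mi : i ∈ act h ∩ act g := by rw [hC]; simp
    have mj : j ∈ act h \ act g := by rw [hD]; simp
    have mk : k ∈ act h \ act g := by rw [hD]; simp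
    have ml : l ∈ act g \ act h := by rw [hE]; simp
    have mm : m ∈ act g \ act h := by rw [hE]; simp
    rw [Finset.mem_inter, mem_act, mem_act] at mi
    rw [Finset.mem_sdiff, mem_act, mem_act] at mj mk ml mm
    have hij : i ≠ j := fun e => mj.2 (e ▸ mi.2)
    have hik : i ≠ k := fun e => mk.2 (e ▸ mi.2)
    have hil : i ≠ l := fun e => ml.2 (e ▸ mi.1)
    have him : i ≠ m := fun e => mm.2 (e ▸ mi.1)
    have hall : ∀ t, h t = 1 → t = i ∨ t = j ∨ t = k := by
      intro t ht
      by_cases hg : g t = 1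
      · have : t ∈ act h ∩ act g := Finset.mem_inter.2 ⟨mem_act.2 ht, mem_act.2 hg⟩
        rw [hC, Finset.mem_singleton] at this
        exact Or.inl this
      · have : t ∈ act h \ act g := Finset.mem_sdiff.2 ⟨mem_act.2 ht, fun hc => hg (mem_act.1 hc)⟩
        rw [hD, Finset.mem_insert, Finset.mem_singleton] at this
        exact Or.inr this
    have hall' : ∀ t, g t = 1 → t = i ∨ t = l ∨ t = m := by
      intro t ht
      by_cases hg : h t = 1
      · have : t ∈ act h ∩ act g := Finset.mem_inter.2 ⟨mem_act.2 hg, mem_act.2 ht⟩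
        rw [hC, Finset.mem_singleton] at this
        exact Or.inl this
      · have : t ∈ act g \ act h := Finset.mem_sdiff.2 ⟨mem_act.2 ht, fun hc => hg (mem_act.1 hc)⟩
        rw [hE, Finset.mem_insert, Finset.mem_singleton] at this
        exact Or.inr this
    have hA' : act h = {i, j, k} := by
      ext t
      rw [mem_act, Finset.mem_insert, Finset.mem_insert, Finset.mem_singleton]
      exact ⟨hall t, by rintro (rfl | rfl | rfl); exacts [mi.1, mj.1, mk.1]⟩
    have hB' : act g = {i, l, m} := by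
      ext t
      rw [mem_act, Finset.mem_insert, Finset.mem_insert, Finset.mem_singleton]
      exact ⟨hall' t, by rintro (rfl | rfl | rfl); exacts [mi.2, ml.1, mm.1]⟩
    have hval : ∀ x, x ∈ Pg h → x ∈ Pg g →
        (((mg h g j = 0 ∧ mg h g k = 2) ∨ (mg h g j = 2 ∧ mg h g k = 0)) ∧ x i = 1) ∧
        ((mg h g l = 0 ∧ mg h g m = 2) ∨ (mg h g l = 2 ∧ mg h g m = 0)) := by
      intro x hx hx'
      have s1 := hx.2.2
      rw [sum3 hij hik hjk hA'] at s1
      have s2 := hx'.2.2
      rw [sum3 hil him hlm hB'] at s2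
      refine ⟨two_fixed (x := x) (i := i) (j := j) (k := k) ?_ ?_
        (hoff x hx hx' j fun e => mj.2 e.2)
        (hoff x hx hx' k fun e => mk.2 e.2) (hx.2.1 i).1 (hx.2.1 i).2 s1,
        (two_fixed (x := x) (i := i) (j := l) (k := m) ?_ ?_
          (hoff x hx hx' l fun e => ml.2 e.1) (hoff x hx hx' m fun e => mm.2 e.1) (hx.2.1 i).1
          (hx.2.1 i).2 s2).1⟩
      · rw [mg_one mj.1]; exact mj.2
      · rw [mg_one mk.1]; exact mk.2
      · rw [mg_off ml.2]; exact ml.2
      · rw [mg_off mm.2]; exact mm.2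
    have ei : mg h g i = 1 := by rw [mg_one mi.1]; exact mi.2
    have hsub : ∀ x, x ∈ body (hf h) ∩ body (hf g) → x = pw (mg h g) := by
      intro x hx
      obtain ⟨hx1, hx2⟩ := (hmem x).1 hx
      funext t
      by_cases ht : h t = 1 ∧ g t = 1
      · have : t ∈ act h ∩ act g := Finset.mem_inter.2 ⟨mem_act.2 ht.1, mem_act.2 ht.2⟩
        rw [hC, Finset.mem_singleton] at this
        rw [this, (hval x hx1 hx2).1.2]
        unfold pw
        rw [ei, v1]
      · exact hoff x hx1 hx2 t ht
    obtain ⟨⟨w1, -⟩, w2⟩ := hval x₀ hx₁ hx₂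
    refine ⟨pw (mg h g), mem_hf ?_, mem_hf ?_, ?_⟩
    · exact vx_three i j k hij hik hjk mi.1 mj.1 mk.1 heh hall ei w1
    · exact vx_three i l m hil him hlm mi.2 ml.1 mm.1 heg hall' ei w2
    · refine Set.Subset.antisymm (fun x hx => Set.mem_singleton_iff.2 (hsub x hx)) ?_
      intro x hx
      rw [Set.mem_singleton_iff.1 hx, ← hsub x₀ hx₀]
      exact hx₀
  · -- two common active places
    refine Or.inr ?_
    obtain ⟨i, j, hij, hC⟩ := Finset.card_eq_two.1 hc
    obtain ⟨k, hD⟩ := Finset.card_eq_one.1 (show (act h \ act g).card = 1 by omega)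
    obtain ⟨l, hE⟩ := Finset.card_eq_one.1 (show (act g \ act h).card = 1 by omega)
    have mi : i ∈ act h ∩ act g := by rw [hC]; simp
    have mj : j ∈ act h ∩ act g := by rw [hC]; simp
    have mk : k ∈ act h \ act g := by rw [hD]; simp
    have ml : l ∈ act g \ act h := by rw [hE]; simp
    rw [Finset.mem_inter, mem_act, mem_act] at mi mj
    rw [Finset.mem_sdiff, mem_act, mem_act] at mk ml
    have hik : i ≠ k := fun e => mk.2 (e ▸ mi.2)
    have hjk : j ≠ k := fun e => mk.2 (e ▸ mj.2)
    have hil : i ≠ l := fun e => ml.2 (e ▸ mi.1)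
    have hjl : j ≠ l := fun e => ml.2 (e ▸ mj.1)
    have hCm : ∀ t, h t = 1 → g t = 1 → t = i ∨ t = j := by
      intro t ht hg
      have : t ∈ act h ∩ act g := Finset.mem_inter.2 ⟨mem_act.2 ht, mem_act.2 hg⟩
      rw [hC, Finset.mem_insert, Finset.mem_singleton] at this
      exact this
    have hall : ∀ t, h t = 1 → t = i ∨ t = j ∨ t = k := by
      intro t ht
      by_cases hg : g t = 1
      · rcases hCm t ht hg with e | e
        · exact Or.inl e
        · exact Or.inr (Or.inl e)
      · have : t ∈ act h \ act g := Finset.mem_sdiff.2 ⟨mem_act.2 ht, fun hc => hg (mem_act.1 hc)⟩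
        rw [hD, Finset.mem_singleton] at this
        exact Or.inr (Or.inr this)
    have hall' : ∀ t, g t = 1 → t = i ∨ t = j ∨ t = l := by
      intro t ht
      by_cases hg : h t = 1
      · rcases hCm t hg ht with e | e
        · exact Or.inl e
        · exact Or.inr (Or.inl e)
      · have : t ∈ act g \ act h := Finset.mem_sdiff.2 ⟨mem_act.2 ht, fun hc => hg (mem_act.1 hc)⟩
        rw [hE, Finset.mem_singleton] at this
        exact Or.inr (Or.inr this)
    have hA' : act h = {i, j, k} := by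
      ext t
      rw [mem_act, Finset.mem_insert, Finset.mem_insert, Finset.mem_singleton]
      exact ⟨hall t, by rintro (rfl | rfl | rfl); exacts [mi.1, mj.1, mk.1]⟩
    have hB' : act g = {i, j, l} := by
      ext t
      rw [mem_act, Finset.mem_insert, Finset.mem_insert, Finset.mem_singleton]
      exact ⟨hall' t, by rintro (rfl | rfl | rfl); exacts [mi.2, mj.2, ml.1]⟩
    have ek : mg h g k ≠ 1 := by rw [mg_one mk.1]; exact mk.2
    have hs1 : ∀ x, x ∈ Pg h → x ∈ Pg g → x i + x j + ((mg h g k).val : ℝ) = 3 := by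
      intro x hx hx'
      have s1 := hx.2.2
      rw [sum3 hij hik hjk hA', hoff x hx hx' k fun e => mk.2 e.2] at s1
      exact s1
    have hs2 : x₀ i + x₀ j + ((mg h g l).val : ℝ) = 3 := by
      have s1 := hx₂.2.2
      rw [sum3 hij hil hjl hB', hoff x₀ hx₁ hx₂ l fun e => ml.2 e.1] at s1
      exact s1
    have ekl : mg h g l = mg h g k := by
      have s1 := hs1 x₀ hx₁ hx₂
      exact val_inj (by linarith)
    obtain ⟨p, q, hpq, hv, hsum, hlo⟩ : ∃ p q : Fin 3,
        ((p = 1 ∧ q = 2 ∧ mg h g k = 0) ∨ (p = 0 ∧ q = 1 ∧ mg h g k = 2)) ∧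
        ((q.val : ℕ) : ℝ) = (p.val : ℕ) + 1 ∧
        (∀ x, x ∈ Pg h → x ∈ Pg g → x i + x j = ((p.val : ℕ) : ℝ) + (q.val : ℕ)) ∧
        (∀ x, x ∈ Pg h → x ∈ Pg g → ((p.val : ℕ) : ℝ) ≤ x i ∧ x i ≤ (q.val : ℕ)) := by
      rcases f3 _ ek with e0 | e0
      · refine ⟨1, 2, Or.inl ⟨rfl, rfl, e0⟩, by rw [v1, v2]; norm_num, ?_, ?_⟩
        · intro x hx hx'
          have s1 := hs1 x hx hx'
          rw [e0, v0] at s1
          rw [v1, v2]; linarith
        · intro x hx hx'
          have s1 := hs1 x hx hx'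
          rw [e0, v0] at s1
          rw [v1, v2]
          have a1 := hx.2.1 i
          have a2 := hx.2.1 j
          constructor
          · linarith [a2.2]
          · exact a1.2
      · refine ⟨0, 1, Or.inr ⟨rfl, rfl, e0⟩, by rw [v0, v1]; norm_num, ?_, ?_⟩
        · intro x hx hx'
          have s1 := hs1 x hx hx'
          rw [e0, v2] at s1
          rw [v0, v1]; linarith
        · intro x hx hx'
          have s1 := hs1 x hx hx'
          rw [e0, v2] at s1
          rw [v0, v1]
          have a1 := hx.2.1 i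
          have a2 := hx.2.1 j
          constructor
          · exact a1.1
          · linarith [a2.1]
    have hpq' : (p = 1 ∧ q = 2 ∧ mg h g l = 0) ∨ (p = 0 ∧ q = 1 ∧ mg h g l = 2) := by
      rw [ekl]; exact hpq
    have E1 := edge_one h1 hA i j k hij hik hjk mi.1 mj.1 mk.1 (mg h g) heh hall p q hpq
    have E2 := edge_one h1 hB i j l hij hil hjl mi.2 mj.2 ml.1 (mg h g) heg hall' p q hpq'
    refine ⟨_, _, E1, E2, ?_⟩
    refine Set.Subset.antisymm ?_ ?_
    · intro x hx
      obtain ⟨hx1, hx2⟩ := (hmem x).1 hx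
      refine seg_lem x (mg h g) i j hij p q hv ?_ (hsum x hx1 hx2) (hlo x hx1 hx2).1
        (hlo x hx1 hx2).2
      intro t a1 a2
      refine hoff x hx1 hx2 t fun e => ?_
      rcases hCm t e.1 e.2 with b | b
      · exact a1 b
      · exact a2 b
    · refine hconv.segment_subset ⟨?_, ?_⟩ ⟨?_, ?_⟩
      · exact subset_convexHull ℝ _ (Finset.mem_coe.2 E1.1)
      · exact subset_convexHull ℝ _ (Finset.mem_coe.2 E2.1)
      · exact subset_convexHull ℝ _ (Finset.mem_coe.2 E1.2.1)
      · exact subset_convexHull ℝ _ (Finset.mem_coe.2 E2.2.1)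
  · -- the same active places: impossible
    exfalso
    apply hne
    have e1 : act h ∩ act g = act h := Finset.eq_of_subset_of_card_le Finset.inter_subset_left
      (by rw [hA, hc])
    have e2 : act h ∩ act g = act g := Finset.eq_of_subset_of_card_le Finset.inter_subset_right
      (by rw [hB, hc])
    have e3 : act h = act g := e1.symm.trans e2
    funext t
    by_cases ht : h t = 1
    · have : t ∈ act g := by rw [← e3]; exact mem_act.2 ht
      rw [ht, mem_act.1 this]
    · by_cases hg : g t = 1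
      · have : t ∈ act h := by rw [e3]; exact mem_act.2 hg
        exact absurd (mem_act.1 this) ht
      · exact hcomp t ht hg

end Pool.Agent.H74.RHX
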